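import Pool.Agent.H6.TP.Targets

/-! EQC: equidistribution for continuous functions of period one. -/

set_option autoImplicit false

open Finset Pool.Agent.H6.N4D Pool.Agent.H6.TP

namespace Pool.Agent.H4.TP

instance fact1 : Fact ((0 : ℝ) < 1) := ⟨one_pos⟩

/-- the mean over the window minus the integral -/
noncomputable def dev (P : AddCircle (1 : ℝ) → ℂ) (n N : ℕ) (θ φ : ℝ) : ℂ :=
  (1 / (N : ℂ)) * ∑ m ∈ Ioc n (n + N), P ((θ * ((m : ℝ) - n) + φ : ℝ) : AddCircle (1 : ℝ)) -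
    ∫ x in (0 : ℝ)..1, P (x : AddCircle (1 : ℝ))

/-- the property of a trigonometric polynomial -/
def Prp (P : C(AddCircle (1 : ℝ), ℂ)) : Prop :=
  ∃ (R : ℕ) (C : ℝ), 0 ≤ C ∧ ∀ η : ℝ, 0 < η → ∀ N : ℕ, 1 ≤ N → ∀ (n : ℕ) (θ φ : ℝ), Gen R η θ →
    ‖dev P n N θ φ‖ ≤ C / (η * N)

lemma gen_mono {R R' : ℕ} (h : R ≤ R') {η θ : ℝ} (hG : Gen R' η θ) : Gen R η θ :=
  fun q hq hq' => hG q hq (hq'.trans h)

lemma ii (P : C(AddCircle (1 : ℝ), ℂ)) :
    IntervalIntegrable (fun x : ℝ => P (x : AddCircle (1 : ℝ))) MeasureTheory.volume 0 1 :=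
  (P.continuous.comp (AddCircle.continuous_mk' (1 : ℝ))).intervalIntegrable 0 1

lemma prp_add {P Q : C(AddCircle (1 : ℝ), ℂ)} (hP : Prp P) (hQ : Prp Q) : Prp (P + Q) := by
  obtain ⟨R, C, hC, h⟩ := hP
  obtain ⟨R', C', hC', h'⟩ := hQ
  refine ⟨max R R', C + C', by positivity, fun η hη N hN n θ φ hG => ?_⟩
  have e : dev (P + Q : C(AddCircle (1 : ℝ), ℂ)) n N θ φ = dev P n N θ φ + dev Q n N θ φ := by
    unfold dev
    simp only [ContinuousMap.add_apply, sum_add_distrib]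
    rw [intervalIntegral.integral_add (ii P) (ii Q)]
    ring
  rw [e]
  refine (norm_add_le _ _).trans ?_
  rw [add_div]
  exact add_le_add (h η hη N hN n θ φ (gen_mono (le_max_left _ _) hG))
    (h' η hη N hN n θ φ (gen_mono (le_max_right _ _) hG))

lemma prp_smul {P : C(AddCircle (1 : ℝ), ℂ)} (c : ℂ) (hP : Prp P) : Prp (c • P) := by
  obtain ⟨R, C, hC, h⟩ := hP
  refine ⟨R, ‖c‖ * C, by positivity, fun η hη N hN n θ φ hG => ?_⟩
  have e : dev (c • P : C(AddCircle (1 : ℝ), ℂ)) n N θ φ = c * dev P n N θ φ := by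
    unfold dev
    simp only [ContinuousMap.smul_apply, smul_eq_mul]
    rw [intervalIntegral.integral_const_mul, ← mul_sum]
    ring
  rw [e, norm_mul, mul_div_assoc]
  exact mul_le_mul_of_nonneg_left (h η hη N hN n θ φ hG) (norm_nonneg _)

lemma prp_zero : Prp 0 := by
  refine ⟨0, 0, le_rfl, fun η hη N hN n θ φ hG => ?_⟩
  simp [dev]

lemma fourier_ee (j : ℤ) (x : ℝ) : fourier j (x : AddCircle (1 : ℝ)) = ee (j * x) := by
  rw [fourier_coe_apply]
  unfold ee
  congr 1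
  push_cast
  ring

lemma int_fourier (j : ℤ) (hj : j ≠ 0) :
    ∫ x in (0 : ℝ)..1, fourier j (x : AddCircle (1 : ℝ)) = 0 := by
  have hc : (2 * Real.pi * j * Complex.I : ℂ) ≠ 0 := by
    have := Real.pi_ne_zero
    have hj' : (j : ℂ) ≠ 0 := by exact_mod_cast hj
    simp [this, hj']
  have h1 : ∀ x : ℝ, fourier j (x : AddCircle (1 : ℝ)) =
      Complex.exp ((2 * Real.pi * j * Complex.I : ℂ) * x) := by
    intro x
    rw [fourier_coe_apply]
    congr 1
    push_cast
    ring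
  simp_rw [h1]
  rw [integral_exp_mul_complex hc]
  have h2 : Complex.exp ((2 * Real.pi * j * Complex.I : ℂ) * ((1 : ℝ) : ℂ)) = 1 := by
    rw [Complex.exp_eq_one_iff]
    exact ⟨j, by push_cast; ring⟩
  rw [h2]
  simp

lemma prp_fourier (hTRG : T_TRG) (j : ℤ) : Prp (fourier j) := by
  rcases eq_or_ne j 0 with rfl | hj
  · refine ⟨0, 0, le_rfl, fun η hη N hN n θ φ hG => ?_⟩
    have hN' : (N : ℂ) ≠ 0 := by
      have : N ≠ 0 := by omega
      exact_mod_cast this
    simp [dev, hN']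
  · refine ⟨j.natAbs, 1, zero_le_one, fun η hη N hN n θ φ hG => ?_⟩
    unfold dev
    rw [int_fourier j hj, sub_zero]
    simp_rw [fourier_ee]
    refine hTRG j j.natAbs n N θ φ η hj ?_ hη hG hN
    rw [Int.natCast_natAbs]

lemma prp_span (hTRG : T_TRG) (P : C(AddCircle (1 : ℝ), ℂ))
    (hP : P ∈ Submodule.span ℂ (Set.range (@fourier (1 : ℝ)))) : Prp P := by
  induction hP using Submodule.span_induction with
  | mem x hx =>
    obtain ⟨j, rfl⟩ := hx
    exact prp_fourier hTRG j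
  | zero => exact prp_zero
  | add x y _ _ hx hy => exact prp_add hx hy
  | smul c x _ hx => exact prp_smul c hx

theorem pf_EQC (hTRG : T_TRG) : T_EQC := by
  intro f hf hper s hs
  have hp : Function.Periodic (fun x : ℝ => (f x : ℂ)) (1 : ℝ) := fun x => by
    simp only [hper x]
  have hcont : Continuous (hp.lift : AddCircle (1 : ℝ) → ℂ) := by
    have hq : Topology.IsQuotientMap ((↑) : ℝ → AddCircle (1 : ℝ)) :=
      QuotientAddGroup.isOpenQuotientMap_mk.isQuotientMap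
    rw [hq.continuous_iff]
    exact Complex.continuous_ofReal.comp hf
  let F : C(AddCircle (1 : ℝ), ℂ) := ⟨hp.lift, hcont⟩
  have hF : ∀ x : ℝ, F (x : AddCircle (1 : ℝ)) = f x := fun x => rfl
  have hmem : F ∈ (Submodule.span ℂ (Set.range (@fourier (1 : ℝ)))).topologicalClosure := by
    rw [span_fourier_closure_eq_top]
    exact Submodule.mem_top
  obtain ⟨P, hPs, hPF⟩ := Metric.mem_closure_iff.1 hmem (s / 4) (by positivity)
  obtain ⟨R, C, hC, hPr⟩ := prp_span hTRG P hPs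
  refine ⟨R, fun η hη => ?_⟩
  obtain ⟨N₀, hN₀⟩ := exists_nat_gt (2 * C / (η * s))
  refine ⟨N₀ + 1, fun N hN n θ φ hG => ?_⟩
  have hN1 : 1 ≤ N := by omega
  have hNr : (0 : ℝ) < N := by exact_mod_cast hN1
  have hNc : (N : ℂ) ≠ 0 := by exact_mod_cast hNr.ne'
  have hPb := hPr η hη N hN1 n θ φ hG
  have hdist : ∀ x : AddCircle (1 : ℝ), ‖F x - P x‖ ≤ s / 4 := by
    intro x
    have h := ContinuousMap.dist_apply_le_dist (f := F) (g := P) x
    rw [dist_eq_norm] at h
    exact h.trans hPF.le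
  -- the deviation of F
  have hdF : dev F n N θ φ = (((∑ m ∈ Ioc n (n + N), f (θ * ((m : ℝ) - n) + φ)) / N -
      ∫ x in (0 : ℝ)..1, f x : ℝ) : ℂ) := by
    unfold dev
    simp only [hF]
    push_cast
    rw [intervalIntegral.integral_ofReal]
    ring
  have hdd : ‖dev F n N θ φ - dev P n N θ φ‖ ≤ s / 4 + s / 4 := by
    have e : dev F n N θ φ - dev P n N θ φ = (1 / (N : ℂ)) * ∑ m ∈ Ioc n (n + N),
        (F ((θ * ((m : ℝ) - n) + φ : ℝ) : AddCircle (1 : ℝ)) -
          P ((θ * ((m : ℝ) - n) + φ : ℝ) : AddCircle (1 : ℝ))) -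
        ∫ x in (0 : ℝ)..1, (F (x : AddCircle (1 : ℝ)) - P (x : AddCircle (1 : ℝ))) := by
      unfold dev
      rw [intervalIntegral.integral_sub (ii F) (ii P), sum_sub_distrib]
      ring
    rw [e]
    refine (norm_sub_le _ _).trans (add_le_add ?_ ?_)
    · rw [norm_mul, norm_div, norm_one, Complex.norm_natCast]
      have h1 : ‖∑ m ∈ Ioc n (n + N), (F ((θ * ((m : ℝ) - n) + φ : ℝ) : AddCircle (1 : ℝ)) -
          P ((θ * ((m : ℝ) - n) + φ : ℝ) : AddCircle (1 : ℝ)))‖ ≤ N * (s / 4) := by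
        refine (norm_sum_le _ _).trans ?_
        calc _ ≤ ∑ _m ∈ Ioc n (n + N), (s / 4) := sum_le_sum fun m _ => hdist _
          _ = N * (s / 4) := by simp
      rw [div_mul_eq_mul_div, one_mul, div_le_iff₀ hNr]
      linarith
    · have h2 := intervalIntegral.norm_integral_le_of_norm_le_const (a := (0 : ℝ)) (b := 1)
        (f := fun x : ℝ => F (x : AddCircle (1 : ℝ)) - P (x : AddCircle (1 : ℝ))) (C := s / 4)
        (fun x _ => hdist _)
      simpa using h2
  have hfin : ‖dev F n N θ φ‖ ≤ s := by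
    have h1 : ‖dev F n N θ φ‖ ≤ ‖dev F n N θ φ - dev P n N θ φ‖ + ‖dev P n N θ φ‖ := by
      have := norm_add_le (dev F n N θ φ - dev P n N θ φ) (dev P n N θ φ)
      rwa [sub_add_cancel] at this
    have h2 : C / (η * N) ≤ s / 2 := by
      have h3 : (2 * C / (η * s)) < N := by
        have : (N₀ : ℝ) ≤ N := by exact_mod_cast (by omega : N₀ ≤ N)
        linarith
      rw [div_lt_iff₀ (by positivity)] at h3
      rw [div_le_iff₀ (by positivity)]
      nlinarith
    linarith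
  rw [hdF, Complex.norm_real, Real.norm_eq_abs] at hfin
  exact hfin

end Pool.Agent.H4.TP
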